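import Mathlib

/-!
Double sums `∑_{m<n} ∑_k C(m,k)^2 C(2k,k) f(k)` modulo `n^2`.
-/

namespace Pool.Agent.V11304.DS

open Finset

/-- central binomial coefficient -/
def cb (k : ℕ) : ℚ := ((2 * k).choose k : ℕ)

/-- `C(m,k)` as a rational number -/
def b (m k : ℕ) : ℚ := (m.choose k : ℕ)

theorem cb_succ (k : ℕ) : ((k : ℚ) + 1) * cb (k + 1) = 2 * (2 * k + 1) * cb k := by
  have h := Nat.succ_mul_centralBinom_succ k
  rw [Nat.centralBinom_eq_two_mul_choose, Nat.centralBinom_eq_two_mul_choose] at h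
  have h2 := congrArg (fun t : ℕ => (t : ℚ)) h
  unfold cb
  push_cast at h2 ⊢
  exact h2

theorem b_succ (m k : ℕ) : b m (k + 1) * ((k : ℚ) + 1) = b m k * ((m : ℚ) - k) := by
  unfold b
  rcases Nat.lt_or_ge m k with h | h
  · rw [Nat.choose_eq_zero_of_lt h, Nat.choose_eq_zero_of_lt (by omega)]
    simp
  · have h1 := Nat.choose_succ_right_eq m k
    have h2 := congrArg (fun t : ℕ => (t : ℚ)) h1
    push_cast at h2
    rw [Nat.cast_sub h] at h2
    exact h2

theorem b_pred (m k : ℕ) : (m : ℚ) * b (m - 1) k = ((m : ℚ) - k) * b m k := by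
  unfold b
  rcases m with _ | m
  · rcases k with _ | k
    · simp
    · simp
  · rcases Nat.lt_or_ge (m + 1) k with h | h
    · rw [Nat.choose_eq_zero_of_lt h, Nat.choose_eq_zero_of_lt (show m + 1 - 1 < k by omega)]
      simp
    · have h1 := Nat.choose_mul_succ_eq m k
      have h2 := congrArg (fun t : ℕ => (t : ℚ)) h1
      push_cast at h2
      rw [Nat.cast_sub h] at h2
      push_cast at h2 ⊢
      linear_combination h2

/-- shift of a sum whose first term and last term vanish -/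
theorem shift (F : ℕ → ℚ) (N : ℕ) (h0 : F 0 = 0) (hN : F N = 0) :
    ∑ k ∈ range N, F k = ∑ k ∈ range N, F (k + 1) := by
  have h1 := Finset.sum_range_succ F N
  have h2 := Finset.sum_range_succ' F N
  rw [h1, h0, hN] at h2
  linarith

/-- the inner sum over `k < N` -/
def inn (N m : ℕ) (f : ℕ → ℚ) : ℚ := ∑ k ∈ range N, b m k ^ 2 * cb k * f k

theorem b_zero {m N : ℕ} (h : m < N) : b m N = 0 := by
  unfold b; rw [Nat.choose_eq_zero_of_lt h]; simp

/-- first identity -/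
theorem tel1 (v : ℕ → ℚ) (N m : ℕ) (h : m < N) :
    inn N m (fun k => (2 * k + 1) * (((k : ℚ) + 1) ^ 3 * v k - (k : ℚ) ^ 3 * v (k - 1))) =
      ∑ k ∈ range N, (((m + 1 : ℕ) : ℚ) ^ 2 * b (m + 1 - 1) k ^ 2 * cb k * (2 * k + 1) *
          (3 * k + 3 - 2 * ((m + 1 : ℕ) : ℚ)) * v k)
        - ∑ k ∈ range N, ((m : ℚ) ^ 2 * b (m - 1) k ^ 2 * cb k * (2 * k + 1) *
          (3 * k + 3 - 2 * (m : ℚ)) * v k) := by
  have hs := shift (fun k => b m k ^ 2 * cb k * ((2 * k + 1) * ((k : ℚ) ^ 3 * v (k - 1)))) N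
    (by simp) (by simp only [b_zero h]; ring)
  have e1 : inn N m (fun k => (2 * k + 1) * (((k : ℚ) + 1) ^ 3 * v k - (k : ℚ) ^ 3 * v (k - 1))) =
      ∑ k ∈ range N, b m k ^ 2 * cb k * ((2 * k + 1) * (((k : ℚ) + 1) ^ 3 * v k)) -
      ∑ k ∈ range N, b m k ^ 2 * cb k * ((2 * k + 1) * ((k : ℚ) ^ 3 * v (k - 1))) := by
    unfold inn
    rw [← Finset.sum_sub_distrib]
    refine Finset.sum_congr rfl fun k _ => ?_
    ring
  rw [e1, hs, ← Finset.sum_sub_distrib, ← Finset.sum_sub_distrib]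
  refine Finset.sum_congr rfl fun k _ => ?_
  have h1 := b_succ m k
  have h2 := cb_succ k
  have h3 := b_pred m k
  simp only [Nat.add_sub_cancel]
  push_cast
  have h4 : b m (k + 1) ^ 2 * cb (k + 1) * ((2 * ((k : ℚ) + 1) + 1) * (((k : ℚ) + 1) ^ 3 * v k)) =
      (b m k * ((m : ℚ) - k)) ^ 2 * (2 * (2 * k + 1) * cb k) * (2 * k + 3) * v k := by
    rw [← h1, ← h2]; ring
  have h5 : (m : ℚ) ^ 2 * b (m - 1) k ^ 2 * cb k * (2 * k + 1) * (3 * k + 3 - 2 * (m : ℚ)) * v k =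
      (((m : ℚ) - k) * b m k) ^ 2 * cb k * (2 * k + 1) * (3 * k + 3 - 2 * (m : ℚ)) * v k := by
    rw [← h3]; ring
  rw [h4, h5]
  ring

/-- the second identity -/
theorem tel2 (g : ℕ → ℚ) (N m : ℕ) :
    inn N m (fun k => (2 * m + 1 - k) * g k) =
      ∑ k ∈ range N, (((m + 1 : ℕ) : ℚ) ^ 2 * b (m + 1 - 1) k ^ 2 * (cb k / (k + 1)) * g k)
        - ∑ k ∈ range N, ((m : ℚ) ^ 2 * b (m - 1) k ^ 2 * (cb k / (k + 1)) * g k) := by
  unfold inn
  rw [← Finset.sum_sub_distrib]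
  refine Finset.sum_congr rfl fun k _ => ?_
  have h3 := b_pred m k
  simp only [Nat.add_sub_cancel]
  push_cast
  have hk : (k : ℚ) + 1 ≠ 0 := by positivity
  have h5 : (m : ℚ) ^ 2 * b (m - 1) k ^ 2 * (cb k / (k + 1)) * g k =
      (((m : ℚ) - k) * b m k) ^ 2 * (cb k / (k + 1)) * g k := by
    rw [← h3]; ring
  rw [h5]
  field_simp
  ring

/-- symmetric function identity: `∑_k C(m,k)^2 C(2k,k) (2m-3k) = 0`. -/
theorem symm (N m : ℕ) (h : m < N) : inn N m (fun k => 2 * m - 3 * k) = 0 := by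
  -- `T i j = (m! / (i! j! (m-i-j)!))^2`
  have hT : ∀ i j : ℕ, m.choose i * (m - i).choose j = m.choose j * (m - j).choose i := by
    intro i j
    rcases Nat.lt_or_ge m i with hi | hi
    · rw [Nat.choose_eq_zero_of_lt hi]
      rcases Nat.lt_or_ge m j with hj | hj
      · rw [Nat.choose_eq_zero_of_lt hj]; simp
      · rw [Nat.choose_eq_zero_of_lt (show m - j < i by omega)]; simp
    · rcases Nat.lt_or_ge m j with hj | hj
      · rw [Nat.choose_eq_zero_of_lt hj, Nat.choose_eq_zero_of_lt (show m - i < j by omega)]; simp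
      · rcases Nat.lt_or_ge (m - i) j with hij | hij
        · rw [Nat.choose_eq_zero_of_lt hij, Nat.choose_eq_zero_of_lt (show m - j < i by omega)]
          simp
        · have e1 := Nat.choose_mul_factorial_mul_factorial hi
          have e2 := Nat.choose_mul_factorial_mul_factorial hij
          have e3 := Nat.choose_mul_factorial_mul_factorial hj
          have e4 := Nat.choose_mul_factorial_mul_factorial (show i ≤ m - j by omega)
          have e5 : m - i - j = m - j - i := by omega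
          rw [e5] at e2
          have hp : 0 < i.factorial * j.factorial * (m - j - i).factorial := by positivity
          apply Nat.eq_of_mul_eq_mul_right hp
          have l1 : m.choose i * (m - i).choose j * (i.factorial * j.factorial * (m - j - i).factorial) =
              m.factorial := by
            rw [← e1, ← e2]; ring
          have l2 : m.choose j * (m - j).choose i * (i.factorial * j.factorial * (m - j - i).factorial) =
              m.factorial := by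
            rw [← e3, ← e4]; ring
          rw [l1, l2]
  -- sum over `i, j ≤ m`
  have hsw : ∑ i ∈ range (m + 1), ∑ j ∈ range (m + 1),
      (((m.choose i * (m - i).choose j : ℕ) : ℚ)) ^ 2 * ((i : ℚ) - j) = 0 := by
    have h1 : ∑ i ∈ range (m + 1), ∑ j ∈ range (m + 1),
        (((m.choose i * (m - i).choose j : ℕ) : ℚ)) ^ 2 * ((i : ℚ) - j) =
        - ∑ i ∈ range (m + 1), ∑ j ∈ range (m + 1),
        (((m.choose i * (m - i).choose j : ℕ) : ℚ)) ^ 2 * ((i : ℚ) - j) := by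
      conv_lhs => rw [Finset.sum_comm]
      rw [← Finset.sum_neg_distrib]
      refine Finset.sum_congr rfl fun i _ => ?_
      rw [← Finset.sum_neg_distrib]
      refine Finset.sum_congr rfl fun j _ => ?_
      rw [hT j i]
      ring
    linarith
  have hin : ∀ i ∈ range (m + 1), ∑ j ∈ range (m + 1),
      (((m.choose i * (m - i).choose j : ℕ) : ℚ)) ^ 2 * ((i : ℚ) - j) =
      (((m.choose i : ℕ) : ℚ)) ^ 2 * cb (m - i) * ((i : ℚ) - ((m : ℚ) - i) / 2) := by
    intro i hi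
    rw [mem_range] at hi
    set t := m - i with ht
    have hsq : ∑ j ∈ range (t + 1), ((t.choose j : ℕ) : ℚ) ^ 2 = cb t := by
      unfold cb
      have := Nat.sum_range_choose_sq t
      exact_mod_cast this
    have hj : ∑ j ∈ range (t + 1), ((t.choose j : ℕ) : ℚ) ^ 2 * j = cb t * (t / 2) := by
      have h2 : ∑ j ∈ range (t + 1), ((t.choose j : ℕ) : ℚ) ^ 2 * j =
          ∑ j ∈ range (t + 1), ((t.choose j : ℕ) : ℚ) ^ 2 * ((t : ℚ) - j) := by
        rw [← Finset.sum_range_reflect]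
        refine Finset.sum_congr rfl fun j hj => ?_
        rw [mem_range] at hj
        rw [show t + 1 - 1 - j = t - j by omega, Nat.choose_symm (by omega), Nat.cast_sub (by omega)]
      have h3 : ∑ j ∈ range (t + 1), ((t.choose j : ℕ) : ℚ) ^ 2 * ((t : ℚ) - j) =
          t * cb t - ∑ j ∈ range (t + 1), ((t.choose j : ℕ) : ℚ) ^ 2 * j := by
        rw [← hsq, mul_sum, ← Finset.sum_sub_distrib]
        refine Finset.sum_congr rfl fun j _ => ?_
        ring
      rw [h3] at h2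
      linarith
    have hext : ∑ j ∈ range (m + 1), (((m.choose i * t.choose j : ℕ) : ℚ)) ^ 2 * ((i : ℚ) - j) =
        ∑ j ∈ range (t + 1), (((m.choose i * t.choose j : ℕ) : ℚ)) ^ 2 * ((i : ℚ) - j) := by
      symm
      refine Finset.sum_subset (fun x hx => ?_) (fun x _ hx => ?_)
      · rw [mem_range] at hx ⊢; omega
      · rw [mem_range] at hx
        rw [Nat.choose_eq_zero_of_lt (show t < x by omega)]
        simp
    rw [hext]
    have hc : (m : ℚ) - i = t := by rw [ht, Nat.cast_sub (by omega)]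
    rw [hc]
    have h4 : ∑ j ∈ range (t + 1), (((m.choose i * t.choose j : ℕ) : ℚ)) ^ 2 * ((i : ℚ) - j) =
        (((m.choose i : ℕ) : ℚ)) ^ 2 * (i * ∑ j ∈ range (t + 1), ((t.choose j : ℕ) : ℚ) ^ 2 -
          ∑ j ∈ range (t + 1), ((t.choose j : ℕ) : ℚ) ^ 2 * j) := by
      rw [mul_sum, ← Finset.sum_sub_distrib, mul_sum]
      refine Finset.sum_congr rfl fun j _ => ?_
      push_cast
      ring
    rw [h4, hsq, hj]
    ring
  rw [Finset.sum_congr rfl hin] at hsw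
  have hrefl : ∑ i ∈ range (m + 1), (((m.choose i : ℕ) : ℚ)) ^ 2 * cb (m - i) * ((i : ℚ) - ((m : ℚ) - i) / 2) =
      ∑ k ∈ range (m + 1), b m k ^ 2 * cb k * (((m : ℚ) - k) - k / 2) := by
    rw [← Finset.sum_range_reflect]
    refine Finset.sum_congr rfl fun k hk => ?_
    rw [mem_range] at hk
    rw [show m + 1 - 1 - k = m - k by omega, Nat.choose_symm (by omega), Nat.cast_sub (by omega),
      show m - (m - k) = k by omega]
    unfold b
    ring
  rw [hrefl] at hsw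
  have hN : inn N m (fun k => 2 * m - 3 * k) =
      2 * ∑ k ∈ range (m + 1), b m k ^ 2 * cb k * (((m : ℚ) - k) - k / 2) := by
    unfold inn
    rw [mul_sum]
    symm
    rw [Finset.sum_congr rfl (fun k _ => show (2 : ℚ) * (b m k ^ 2 * cb k * (((m : ℚ) - k) - k / 2)) =
      b m k ^ 2 * cb k * (2 * m - 3 * k) by ring)]
    refine Finset.sum_subset (fun x hx => ?_) (fun x _ hx => ?_)
    · rw [mem_range] at hx ⊢; omega
    · rw [mem_range] at hx
      rw [b_zero (show m < x by omega)]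
      ring
  rw [hN, hsw, mul_zero]

/-- third identity -/
theorem tel3 (N m : ℕ) (h : m < N) :
    inn N m (fun k => (2 * k + 1) ^ 2) =
      ∑ k ∈ range N, (((m + 1 : ℕ) : ℚ) ^ 2 * b (m + 1 - 1) k ^ 2 * (cb k / (k + 1)) *
          (2 * ((m + 1 : ℕ) : ℚ) - 1 - k))
        - ∑ k ∈ range N, ((m : ℚ) ^ 2 * b (m - 1) k ^ 2 * (cb k / (k + 1)) * (2 * (m : ℚ) - 1 - k)) := by
  have hs := shift (fun k => b m k ^ 2 * (cb k / (k + 1)) * ((k : ℚ) ^ 2 * (k + 1))) N
    (by simp) (by simp only [b_zero h]; ring)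
  have hsy := symm N m h
  have e1 : inn N m (fun k => (2 * k + 1) ^ 2) = inn N m (fun k => (2 * k + 1) ^ 2) +
      (4 * m + 2) * inn N m (fun k => 2 * m - 3 * k) -
      (∑ k ∈ range N, b m (k + 1) ^ 2 * (cb (k + 1) / ((k + 1 : ℕ) + 1)) * (((k + 1 : ℕ) : ℚ) ^ 2 * ((k + 1 : ℕ) + 1))
       - ∑ k ∈ range N, b m k ^ 2 * (cb k / (k + 1)) * ((k : ℚ) ^ 2 * (k + 1))) := by
    rw [hsy, hs]
    ring
  rw [e1]
  unfold inn
  rw [mul_sum, ← Finset.sum_add_distrib, ← Finset.sum_sub_distrib, ← Finset.sum_sub_distrib,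
    ← Finset.sum_sub_distrib]
  refine Finset.sum_congr rfl fun k _ => ?_
  have h1 := b_succ m k
  have h2 := cb_succ k
  have h3 := b_pred m k
  simp only [Nat.add_sub_cancel]
  push_cast
  have hk : (k : ℚ) + 1 ≠ 0 := by positivity
  have hk2 : (k : ℚ) + 1 + 1 ≠ 0 := by positivity
  have h4 : b m (k + 1) ^ 2 * (cb (k + 1) / ((k : ℚ) + 1 + 1)) * (((k : ℚ) + 1) ^ 2 * ((k : ℚ) + 1 + 1)) =
      (b m k * ((m : ℚ) - k)) ^ 2 * (2 * (2 * k + 1) * (cb k / (k + 1))) := by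
    have h2' : cb (k + 1) = 2 * (2 * k + 1) * (cb k / (k + 1)) := by
      field_simp
      linear_combination h2
    rw [← h1, ← h2']
    field_simp
  have h5 : (m : ℚ) ^ 2 * b (m - 1) k ^ 2 * (cb k / (k + 1)) * (2 * (m : ℚ) - 1 - k) =
      (((m : ℚ) - k) * b m k) ^ 2 * (cb k / (k + 1)) * (2 * (m : ℚ) - 1 - k) := by
    rw [← h3]; ring
  rw [h4, h5]
  field_simp
  ring

/-- the double sum -/
def Sig (f : ℕ → ℚ) (n : ℕ) : ℚ := ∑ m ∈ range n, inn n m f

theorem inn_ext (f : ℕ → ℚ) (N m : ℕ) (h : m < N) : inn N m f = inn (m + 1) m f := by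
  unfold inn
  symm
  refine Finset.sum_subset (fun x hx => ?_) (fun x _ hx => ?_)
  · rw [mem_range] at hx ⊢; omega
  · rw [mem_range] at hx
    rw [b_zero (show m < x by omega)]
    ring

theorem inn_add (f g : ℕ → ℚ) (N m : ℕ) : inn N m (fun k => f k + g k) = inn N m f + inn N m g := by
  unfold inn
  rw [← Finset.sum_add_distrib]
  refine Finset.sum_congr rfl fun k _ => ?_
  ring

theorem inn_smul (c : ℚ) (f : ℕ → ℚ) (N m : ℕ) : inn N m (fun k => c * f k) = c * inn N m f := by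
  unfold inn
  rw [mul_sum]
  refine Finset.sum_congr rfl fun k _ => ?_
  ring

theorem Sig_v (v : ℕ → ℚ) (n : ℕ) :
    Sig (fun k => (2 * k + 1) * (((k : ℚ) + 1) ^ 3 * v k - (k : ℚ) ^ 3 * v (k - 1))) n =
      (n : ℚ) ^ 2 * ∑ k ∈ range n, (b (n - 1) k ^ 2 * cb k * (2 * k + 1) *
          (3 * k + 3 - 2 * (n : ℚ)) * v k) := by
  unfold Sig
  rw [Finset.sum_congr rfl (fun m hm => tel1 v n m (mem_range.mp hm)),
    Finset.sum_range_sub (fun m => ∑ k ∈ range n, ((m : ℚ) ^ 2 * b (m - 1) k ^ 2 * cb k * (2 * k + 1) *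
          (3 * k + 3 - 2 * (m : ℚ)) * v k))]
  rw [mul_sum]
  simp only [Nat.cast_zero]
  rw [Finset.sum_eq_zero (s := range n) (f := fun k : ℕ => ((0 : ℚ) ^ 2 * b (0 - 1) k ^ 2 * cb k * (2 * (k : ℚ) + 1) *
          (3 * k + 3 - 2 * (0 : ℚ)) * v k)) (fun k _ => by ring), sub_zero]
  refine Finset.sum_congr rfl fun k _ => ?_
  ring

theorem Sig_g (g : ℕ → ℚ) (n : ℕ) :
    ∑ m ∈ range n, inn n m (fun k => (2 * m + 1 - k) * g k) =
      (n : ℚ) ^ 2 * ∑ k ∈ range n, (b (n - 1) k ^ 2 * (cb k / (k + 1)) * g k) := by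
  rw [Finset.sum_congr rfl (fun m _ => tel2 g n m),
    Finset.sum_range_sub (fun m => ∑ k ∈ range n, ((m : ℚ) ^ 2 * b (m - 1) k ^ 2 * (cb k / (k + 1)) * g k))]
  rw [mul_sum]
  simp only [Nat.cast_zero]
  rw [Finset.sum_eq_zero (s := range n) (f := fun k : ℕ => ((0 : ℚ) ^ 2 * b (0 - 1) k ^ 2 * (cb k / ((k : ℚ) + 1)) * g k))
    (fun k _ => by ring), sub_zero]
  refine Finset.sum_congr rfl fun k _ => ?_
  ring

theorem Sig_one (n : ℕ) :
    Sig (fun k => 2 * k + 1) n = (n : ℚ) ^ 2 * ∑ k ∈ range n, (b (n - 1) k ^ 2 * (cb k / (k + 1)) * 1) := by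
  rw [← Sig_g (fun _ => 1) n]
  unfold Sig
  refine Finset.sum_congr rfl fun m hm => ?_
  have h := symm n m (mem_range.mp hm)
  have h2 : inn n m (fun k => (2 * (m : ℚ) + 1 - k) * 1) =
      inn n m (fun k => (2 * (k : ℚ) + 1) + (2 * (m : ℚ) - 3 * k)) := by
    unfold inn
    refine Finset.sum_congr rfl fun k _ => ?_
    ring
  rw [h2, inn_add (fun k => 2 * (k : ℚ) + 1) (fun k => 2 * (m : ℚ) - 3 * k), h, add_zero]

theorem Sig_two (n : ℕ) :
    Sig (fun k => (2 * k + 1) ^ 2) n =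
      (n : ℚ) ^ 2 * ∑ k ∈ range n, (b (n - 1) k ^ 2 * (cb k / (k + 1)) * (2 * n - 1 - k)) := by
  unfold Sig
  rw [Finset.sum_congr rfl (fun m hm => tel3 n m (mem_range.mp hm)),
    Finset.sum_range_sub (fun m => ∑ k ∈ range n, ((m : ℚ) ^ 2 * b (m - 1) k ^ 2 * (cb k / (k + 1)) *
      (2 * (m : ℚ) - 1 - k)))]
  rw [mul_sum]
  simp only [Nat.cast_zero]
  rw [Finset.sum_eq_zero (s := range n) (f := fun k : ℕ => ((0 : ℚ) ^ 2 * b (0 - 1) k ^ 2 * (cb k / ((k : ℚ) + 1)) *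
    (2 * (0 : ℚ) - 1 - k)))
    (fun k _ => by ring), sub_zero]
  refine Finset.sum_congr rfl fun k _ => ?_
  ring

/-- integers inside the rational numbers -/
def IsI (x : ℚ) : Prop := ∃ z : ℤ, x = z

theorem IsI.add {x y : ℚ} (hx : IsI x) (hy : IsI y) : IsI (x + y) := by
  obtain ⟨a, rfl⟩ := hx; obtain ⟨c, rfl⟩ := hy
  exact ⟨a + c, by push_cast; ring⟩

theorem IsI.sub {x y : ℚ} (hx : IsI x) (hy : IsI y) : IsI (x - y) := by
  obtain ⟨a, rfl⟩ := hx; obtain ⟨c, rfl⟩ := hy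
  exact ⟨a - c, by push_cast; ring⟩

theorem IsI.mul {x y : ℚ} (hx : IsI x) (hy : IsI y) : IsI (x * y) := by
  obtain ⟨a, rfl⟩ := hx; obtain ⟨c, rfl⟩ := hy
  exact ⟨a * c, by push_cast; ring⟩

theorem IsI.nat (n : ℕ) : IsI (n : ℚ) := ⟨n, by push_cast; ring⟩

theorem IsI.int (n : ℤ) : IsI (n : ℚ) := ⟨n, rfl⟩

theorem IsI.pow {x : ℚ} (hx : IsI x) (n : ℕ) : IsI (x ^ n) := by
  obtain ⟨a, rfl⟩ := hx
  exact ⟨a ^ n, by push_cast; ring⟩

theorem IsI.sum {s : Finset ℕ} {f : ℕ → ℚ} (h : ∀ i ∈ s, IsI (f i)) : IsI (∑ i ∈ s, f i) := by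
  induction s using Finset.induction_on with
  | empty => exact ⟨0, by simp⟩
  | insert a s ha ih =>
    rw [Finset.sum_insert ha]
    exact (h a (Finset.mem_insert_self a s)).add (ih fun i hi => h i (Finset.mem_insert_of_mem hi))

theorem isI_b (m k : ℕ) : IsI (b m k) := IsI.nat _

theorem isI_cb (k : ℕ) : IsI (cb k) := IsI.nat _

theorem isI_cat (k : ℕ) : IsI (cb k / (k + 1)) := by
  have h := Nat.succ_dvd_centralBinom k
  obtain ⟨c, hc⟩ := h
  refine ⟨c, ?_⟩
  have hk : (k : ℚ) + 1 ≠ 0 := by positivity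
  rw [div_eq_iff hk]
  unfold cb
  rw [← Nat.centralBinom_eq_two_mul_choose, hc]
  push_cast
  ring

/-- The functions whose double sums are divisible by `n^2` up to a fixed factor. -/
def PS : Submodule ℚ (ℕ → ℚ) where
  carrier := {f | ∃ D : ℤ, D ≠ 0 ∧ ∀ n : ℕ, ∃ z : ℤ, (D : ℚ) * Sig f n = (n : ℚ) ^ 2 * z}
  zero_mem' := ⟨1, one_ne_zero, fun n => ⟨0, by
    have : Sig 0 n = 0 := by
      unfold Sig inn
      simp
    rw [this]; simp⟩⟩
  add_mem' := by
    rintro f g ⟨D, hD, h⟩ ⟨E, hE, h'⟩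
    refine ⟨D * E, mul_ne_zero hD hE, fun n => ?_⟩
    obtain ⟨z, hz⟩ := h n
    obtain ⟨w, hw⟩ := h' n
    refine ⟨E * z + D * w, ?_⟩
    have e : Sig (f + g) n = Sig f n + Sig g n := by
      unfold Sig
      rw [← Finset.sum_add_distrib]
      refine Finset.sum_congr rfl fun m _ => ?_
      exact inn_add f g n m
    rw [e]
    push_cast
    linear_combination (E : ℚ) * hz + (D : ℚ) * hw
  smul_mem' := by
    rintro c f ⟨D, hD, h⟩
    refine ⟨D * c.den, mul_ne_zero hD (by exact_mod_cast c.den_nz), fun n => ?_⟩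
    obtain ⟨z, hz⟩ := h n
    refine ⟨c.num * z, ?_⟩
    have e : Sig (c • f) n = c * Sig f n := by
      unfold Sig
      rw [mul_sum]
      refine Finset.sum_congr rfl fun m _ => ?_
      exact inn_smul c f n m
    rw [e]
    have hc : (c.den : ℚ) * c = c.num := by
      rw [mul_comm]; exact Rat.mul_den_eq_num c
    push_cast
    linear_combination (c.num : ℚ) * hz + (D : ℚ) * Sig f n * hc

theorem PS_of {f : ℕ → ℚ} (h : ∀ n, ∃ z : ℚ, IsI z ∧ Sig f n = (n : ℚ) ^ 2 * z) : f ∈ PS := by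
  refine ⟨1, one_ne_zero, fun n => ?_⟩
  obtain ⟨z, ⟨w, rfl⟩, hz⟩ := h n
  exact ⟨w, by rw [hz]; simp⟩

theorem mono (i : ℕ) : (fun k : ℕ => (2 * (k : ℚ) + 1) * (k : ℚ) ^ i) ∈ PS := by
  induction i using Nat.strong_induction_on with
  | _ i ih =>
    have h0 : (fun k : ℕ => (2 * (k : ℚ) + 1)) ∈ PS := by
      apply PS_of
      intro n
      refine ⟨_, ?_, Sig_one n⟩
      exact IsI.sum fun k _ => (((isI_b _ _).pow 2).mul (isI_cat k)).mul ⟨1, by simp⟩
    rcases i with _ | _ | i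
    · simpa using h0
    · have h1 : (fun k : ℕ => (2 * (k : ℚ) + 1) ^ 2) ∈ PS := by
        apply PS_of
        intro n
        refine ⟨_, ?_, Sig_two n⟩
        refine IsI.sum fun k _ => (((isI_b _ _).pow 2).mul (isI_cat k)).mul ?_
        exact ⟨2 * n - 1 - k, by push_cast; ring⟩
      have h2 := PS.sub_mem (PS.smul_mem (1 / 2) h1) (PS.smul_mem (1 / 2) h0)
      have e : (fun k : ℕ => (2 * (k : ℚ) + 1) * (k : ℚ) ^ (0 + 1)) =
          (1 / 2 : ℚ) • (fun k : ℕ => (2 * (k : ℚ) + 1) ^ 2) - (1 / 2 : ℚ) • (fun k : ℕ => (2 * (k : ℚ) + 1)) := by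
        funext k
        simp only [Pi.sub_apply, Pi.smul_apply, smul_eq_mul]
        ring
      rw [e]; exact h2
    · have h1 : (fun k : ℕ => (2 * (k : ℚ) + 1) * (((k : ℚ) + 1) ^ 3 * (fun k : ℕ => ((k : ℚ) + 1) ^ i) k -
          (k : ℚ) ^ 3 * (fun k : ℕ => ((k : ℚ) + 1) ^ i) (k - 1))) ∈ PS := by
        apply PS_of
        intro n
        refine ⟨_, ?_, Sig_v _ n⟩
        refine IsI.sum fun k _ => ?_
        refine ((((((isI_b _ _).pow 2).mul (isI_cb k)).mul ?_).mul ?_)).mul ?_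
        · exact ⟨2 * k + 1, by push_cast; ring⟩
        · exact ⟨3 * k + 3 - 2 * n, by push_cast; ring⟩
        · exact ⟨((k : ℤ) + 1) ^ i, by push_cast; ring⟩
      have e1 : (fun k : ℕ => (2 * (k : ℚ) + 1) * (((k : ℚ) + 1) ^ 3 * (fun k : ℕ => ((k : ℚ) + 1) ^ i) k -
          (k : ℚ) ^ 3 * (fun k : ℕ => ((k : ℚ) + 1) ^ i) (k - 1))) =
          ((i : ℚ) + 3) • (fun k : ℕ => (2 * (k : ℚ) + 1) * (k : ℚ) ^ (i + 2)) +
          ∑ j ∈ range (i + 2), (((i + 3).choose j : ℕ) : ℚ) • (fun k : ℕ => (2 * (k : ℚ) + 1) * (k : ℚ) ^ j) := by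
        funext k
        simp only [Pi.add_apply, Pi.smul_apply, smul_eq_mul, Finset.sum_apply]
        have e2 : (k : ℚ) ^ 3 * (((k - 1 : ℕ) : ℚ) + 1) ^ i = (k : ℚ) ^ (i + 3) := by
          rcases k with _ | k
          · simp
          · rw [Nat.add_sub_cancel]
            push_cast
            ring
        rw [e2]
        have e3 : ((k : ℚ) + 1) ^ 3 * ((k : ℚ) + 1) ^ i = ((k : ℚ) + 1) ^ (i + 3) := by ring
        rw [e3, add_pow, Finset.sum_range_succ, Finset.sum_range_succ]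
        have e4 : ((i + 3).choose (i + 2) : ℕ) = i + 3 := by
          rw [show i + 3 = (i + 2) + 1 by ring, Nat.choose_succ_self_right]
        rw [e4, Nat.choose_self]
        push_cast
        simp only [one_pow, mul_one]
        rw [show (2 * (k : ℚ) + 1) * (∑ x ∈ range (i + 2), (k : ℚ) ^ x * ((i + 3).choose x : ℚ) +
          (k : ℚ) ^ (i + 2) * ((i : ℚ) + 3) + (k : ℚ) ^ (i + 3) - (k : ℚ) ^ (i + 3)) =
          ((i : ℚ) + 3) * ((2 * (k : ℚ) + 1) * (k : ℚ) ^ (i + 2)) +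
          ∑ x ∈ range (i + 2), (2 * (k : ℚ) + 1) * ((k : ℚ) ^ x * ((i + 3).choose x : ℚ)) by
            rw [← mul_sum]; ring]
        congr 1
        refine Finset.sum_congr rfl fun j _ => ?_
        ring
      rw [e1] at h1
      have h2 : ∑ j ∈ range (i + 2), (((i + 3).choose j : ℕ) : ℚ) •
          (fun k : ℕ => (2 * (k : ℚ) + 1) * (k : ℚ) ^ j) ∈ PS :=
        PS.sum_mem fun j hj => PS.smul_mem _ (ih j (by rw [mem_range] at hj; omega))
      have h3 := PS.sub_mem h1 h2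
      rw [add_sub_cancel_right] at h3
      have hne : (i : ℚ) + 3 ≠ 0 := by positivity
      have h4 := PS.smul_mem ((i : ℚ) + 3)⁻¹ h3
      rw [smul_smul, inv_mul_cancel₀ hne, one_smul] at h4
      exact h4

theorem poly (q : Polynomial ℚ) : (fun k : ℕ => (2 * (k : ℚ) + 1) * q.eval (k : ℚ)) ∈ PS := by
  have e : (fun k : ℕ => (2 * (k : ℚ) + 1) * q.eval (k : ℚ)) =
      ∑ i ∈ range (q.natDegree + 1), q.coeff i • (fun k : ℕ => (2 * (k : ℚ) + 1) * (k : ℚ) ^ i) := by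
    funext k
    rw [Finset.sum_apply, Polynomial.eval_eq_sum_range, mul_sum]
    refine Finset.sum_congr rfl fun i _ => ?_
    simp only [Pi.smul_apply, smul_eq_mul]
    ring
  rw [e]
  exact PS.sum_mem fun i _ => PS.smul_mem _ (mono i)

/-- the weighted double sum -/
def SigM (f : ℕ → ℚ) (n : ℕ) : ℚ := ∑ m ∈ range n, (m : ℚ) * inn n m f

theorem SigM_eq (g : ℕ → ℚ) (n : ℕ) :
    2 * SigM g n = (n : ℚ) ^ 2 * ∑ k ∈ range n, (b (n - 1) k ^ 2 * (cb k / (k + 1)) * g k)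
      + Sig (fun k => ((k : ℚ) - 1) * g k) n := by
  rw [← Sig_g g n]
  unfold SigM Sig
  rw [mul_sum, ← Finset.sum_add_distrib]
  refine Finset.sum_congr rfl fun m _ => ?_
  unfold inn
  rw [← Finset.sum_add_distrib, mul_sum, mul_sum]
  refine Finset.sum_congr rfl fun k _ => ?_
  ring

theorem final (r : ℕ) : ∃ D : ℤ, D ≠ 0 ∧ ∀ n : ℕ,
    (∃ z : ℤ, (D : ℚ) * Sig (fun k => (2 * (k : ℚ) + 1) ^ (r + 1)) n = (n : ℚ) ^ 2 * z) ∧
    (∃ z : ℤ, (D : ℚ) * SigM (fun k => (2 * (k : ℚ) + 1) ^ (r + 1)) n = (n : ℚ) ^ 2 * z) := by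
  obtain ⟨D, hD, h⟩ := poly ((2 * Polynomial.X + 1) ^ r)
  obtain ⟨E, hE, h'⟩ := poly ((Polynomial.X - 1) * (2 * Polynomial.X + 1) ^ r)
  refine ⟨2 * D * E, mul_ne_zero (mul_ne_zero two_ne_zero hD) hE, fun n => ⟨?_, ?_⟩⟩
  · obtain ⟨z, hz⟩ := h n
    refine ⟨2 * E * z, ?_⟩
    have e : (fun k : ℕ => (2 * (k : ℚ) + 1) ^ (r + 1)) = (fun k : ℕ => (2 * (k : ℚ) + 1) *
        ((2 * Polynomial.X + 1 : Polynomial ℚ) ^ r).eval (k : ℚ)) := by
      funext k
      simp only [Polynomial.eval_pow, Polynomial.eval_add, Polynomial.eval_mul, Polynomial.eval_ofNat,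
        Polynomial.eval_X, Polynomial.eval_one]
      ring
    rw [e]
    push_cast
    linear_combination (2 * (E : ℚ)) * hz
  · obtain ⟨z, hz⟩ := h' n
    have e : (fun k : ℕ => ((k : ℚ) - 1) * (2 * (k : ℚ) + 1) ^ (r + 1)) = (fun k : ℕ => (2 * (k : ℚ) + 1) *
        ((Polynomial.X - 1) * (2 * Polynomial.X + 1 : Polynomial ℚ) ^ r).eval (k : ℚ)) := by
      funext k
      simp only [Polynomial.eval_pow, Polynomial.eval_add, Polynomial.eval_mul, Polynomial.eval_ofNat,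
        Polynomial.eval_X, Polynomial.eval_one, Polynomial.eval_sub]
      ring
    have h2 := SigM_eq (fun k => (2 * (k : ℚ) + 1) ^ (r + 1)) n
    rw [e] at h2
    have h3 : IsI (∑ k ∈ range n, (b (n - 1) k ^ 2 * (cb k / (k + 1)) * (2 * (k : ℚ) + 1) ^ (r + 1))) := by
      refine IsI.sum fun k _ => (((isI_b _ _).pow 2).mul (isI_cat k)).mul ?_
      exact ⟨(2 * k + 1) ^ (r + 1), by push_cast; ring⟩
    obtain ⟨w, hw⟩ := h3
    rw [hw] at h2
    refine ⟨D * E * w + D * z, ?_⟩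
    push_cast
    linear_combination ((D : ℚ) * E) * h2 + (D : ℚ) * hz

end Pool.Agent.V11304.DS
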